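import Pool.Agent.H792R2.Rat.Loc

set_option autoImplicit false

open Filter Topology Metric Set

namespace Pool.Agent.H792R2.Rt

/-- Local version of the growth estimate: if two orbits issued from points `u a`, `w a` that
differ by `κ a ^ D + …` stay in a bounded set `K₁` up to time `n` for all parameters of modulus
at most `r`, then the derivative along the central orbit is at most `C / r ^ D`. -/
theorem growth_loc {f : ℂ → ℂ → ℂ} {W : Set (ℂ × ℂ)}
    (hf : ∀ p ∈ W, ContDiffAt ℂ 1 (fun p : ℂ × ℂ => f p.1 p.2) p)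
    {K₁ : Set ℂ} {ρ M : ℝ} (hM : ∀ z ∈ K₁, ‖z‖ ≤ M)
    (hKW : ∀ a z, ‖a‖ < ρ → z ∈ K₁ → (a, z) ∈ W)
    {u w : ℂ → ℂ} (hu : ∀ a, ‖a‖ < ρ → DifferentiableAt ℂ u a)
    (hw : ∀ a, ‖a‖ < ρ → DifferentiableAt ℂ w a) {v κ : ℂ}
    (hu0 : u 0 = v) (hw0 : w 0 = v) {D : ℕ}
    (hlim : Tendsto (fun a => (u a - w a) / a ^ D) (𝓝[≠] 0) (𝓝 κ)) (n : ℕ) {r : ℝ}
    (hr : 0 < r) (hrρ : r < ρ)
    (hub : ∀ m ≤ n, ∀ a, ‖a‖ ≤ r → (f a)^[m] (u a) ∈ K₁)
    (hwb : ∀ m ≤ n, ∀ a, ‖a‖ ≤ r → (f a)^[m] (w a) ∈ K₁) :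
    ‖κ‖ * ‖deriv ((f 0)^[n]) v‖ * r ^ D ≤ 2 * M := by
  set G : ℂ × ℂ → ℂ := fun p => (f p.1)^[n] p.2 with hG
  have hGc : ContDiffAt ℂ 1 G (0, v) := by
    refine iter_at hf n fun i hi => ?_
    have h1 := hub i hi.le 0 (by simpa using hr.le)
    rw [hu0] at h1
    exact hKW _ _ (by simpa using hr.trans hrρ) h1
  set L : ℂ := deriv ((f 0)^[n]) v with hL
  have hGs : HasStrictFDerivAt G (fderiv ℂ G (0, v)) (0, v) :=
    hGc.hasStrictFDerivAt (by norm_num)
  have hLd : ∀ t : ℂ, fderiv ℂ G (0, v) (0, t) = L * t := by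
    intro t
    have h1 : HasFDerivAt G (fderiv ℂ G ((0 : ℂ), v)) ((0 : ℂ), v) := hGs.hasFDerivAt
    have h2 : HasDerivAt (fun w : ℂ => (((0 : ℂ), w) : ℂ × ℂ)) ((0, 1) : ℂ × ℂ) v :=
      (hasDerivAt_const v (0 : ℂ)).prodMk (hasDerivAt_id v)
    have h3 : HasDerivAt ((f 0)^[n]) (fderiv ℂ G (0, v) (0, 1)) v := h1.comp_hasDerivAt v h2
    have h4 : ((0, t) : ℂ × ℂ) = t • ((0, 1) : ℂ × ℂ) := by ext <;> simp
    rw [h4, map_smul, hL, h3.deriv, smul_eq_mul, mul_comm]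
  set E : ℂ → ℂ := fun a => (f a)^[n] (u a) - (f a)^[n] (w a) with hE
  have hEd : ∀ a, ‖a‖ ≤ r → DifferentiableAt ℂ E a := by
    intro a ha
    have hlt := lt_of_le_of_lt ha hrρ
    exact (orbit_diffAt hf (hu a hlt) n fun m hm => hKW _ _ hlt (hub m hm.le a ha)).sub
      (orbit_diffAt hf (hw a hlt) n fun m hm => hKW _ _ hlt (hwb m hm.le a ha))
  have h0ρ : ‖(0 : ℂ)‖ < ρ := by simpa using hr.trans hrρ
  -- the quotient has a limit at zero
  have hElim : Tendsto (fun a => E a / a ^ D) (𝓝[≠] 0) (𝓝 (L * κ)) := by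
    have ht : Tendsto (fun a : ℂ => (((a, u a), (a, w a)) : (ℂ × ℂ) × (ℂ × ℂ))) (𝓝 0)
        (𝓝 (((0 : ℂ), v), ((0 : ℂ), v))) := by
      have h1 : Tendsto u (𝓝 0) (𝓝 v) := by
        have := (hu 0 h0ρ).continuousAt.tendsto
        rwa [hu0] at this
      have h2 : Tendsto w (𝓝 0) (𝓝 v) := by
        have := (hw 0 h0ρ).continuousAt.tendsto
        rwa [hw0] at this
      exact (tendsto_id.prodMk_nhds h1).prodMk_nhds (tendsto_id.prodMk_nhds h2)
    have ho := hGs.isLittleO.comp_tendsto ht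
    have ho2 : (fun a : ℂ => E a - L * (u a - w a)) =o[𝓝 0] fun a : ℂ => u a - w a := by
      have h1 : (fun a : ℂ => E a - L * (u a - w a)) = ((fun p : (ℂ × ℂ) × (ℂ × ℂ) =>
          G p.1 - G p.2 - (fderiv ℂ G (0, v)) (p.1 - p.2)) ∘ fun a : ℂ => ((a, u a), (a, w a))) := by
        ext a
        change E a - L * (u a - w a) = G (a, u a) - G (a, w a) -
          (fderiv ℂ G (0, v)) ((a, u a) - (a, w a))
        rw [Prod.mk_sub_mk, sub_self, hLd]
      rw [h1]
      refine ho.trans_isBigO ?_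
      rw [Asymptotics.isBigO_iff]
      refine ⟨1, Eventually.of_forall fun a => ?_⟩
      simp [Function.comp, Prod.norm_def]
    have ho3 : Tendsto (fun a : ℂ => (E a - L * (u a - w a)) / a ^ D) (𝓝[≠] 0) (𝓝 0) := by
      have h1 : (fun a : ℂ => (E a - L * (u a - w a)) / a ^ D) =o[𝓝[≠] 0]
          fun a : ℂ => (u a - w a) / a ^ D := by
        have h2 := (ho2.mono (nhdsWithin_le_nhds (s := {0}ᶜ))).mul_isBigO
          (Asymptotics.isBigO_refl (fun a : ℂ => (a ^ D)⁻¹) (𝓝[≠] 0))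
        simpa only [div_eq_mul_inv] using h2
      have h3 : (fun a : ℂ => (u a - w a) / a ^ D) =O[𝓝[≠] 0] fun _ => (1 : ℝ) :=
        hlim.isBigO_one ℝ
      exact (Asymptotics.isLittleO_one_iff ℝ).1 (h1.trans_isBigO h3)
    have h4 := ho3.add (hlim.const_mul L)
    rw [zero_add] at h4
    refine h4.congr' ?_
    filter_upwards [self_mem_nhdsWithin] with a ha
    have ha' : a ^ D ≠ 0 := pow_ne_zero _ ha
    field_simp
    ring
  -- removable singularity
  set Q : ℂ → ℂ := Function.update (fun a => E a / a ^ D) 0 (L * κ) with hQ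
  have hQne : ∀ a, a ≠ 0 → Q a = E a / a ^ D := fun a ha => Function.update_of_ne ha _ _
  have hQ0 : Q 0 = L * κ := Function.update_self _ _ _
  have hQc : ContinuousAt Q 0 := by
    rw [hQ, continuousAt_update_same]
    exact hElim
  have hQd0 : ∀ a, a ≠ 0 → DifferentiableAt ℂ E a → DifferentiableAt ℂ Q a := by
    intro a ha hd
    have h1 : (fun a => E a / a ^ D) =ᶠ[𝓝 a] Q := by
      filter_upwards [isOpen_ne.mem_nhds ha] with t ht
      exact (hQne t ht).symm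
    refine DifferentiableAt.congr_of_eventuallyEq ?_ h1.symm
    exact hd.div (by fun_prop) (pow_ne_zero _ ha)
  have hQd : ∀ a, ‖a‖ ≤ r → DifferentiableAt ℂ Q a := by
    intro a har
    by_cases ha : a = 0
    · subst ha
      refine (Complex.analyticAt_of_differentiable_on_punctured_nhds_of_continuousAt ?_
        hQc).differentiableAt
      have h2 : ball (0 : ℂ) r ∈ 𝓝 (0 : ℂ) := ball_mem_nhds _ hr
      filter_upwards [self_mem_nhdsWithin, nhdsWithin_le_nhds h2] with z hz hz2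
      rw [mem_ball_zero_iff] at hz2
      exact hQd0 z hz (hEd z hz2.le)
    · exact hQd0 a ha (hEd a har)
  have hmax : ‖Q 0‖ ≤ 2 * M / r ^ D := by
    refine Complex.norm_le_of_forall_mem_frontier_norm_le (U := ball (0 : ℂ) r)
      isBounded_ball ⟨?_, ?_⟩ ?_ (subset_closure (mem_ball_self hr))
    · intro z hz
      rw [mem_ball_zero_iff] at hz
      exact (hQd z hz.le).differentiableWithinAt
    · intro z hz
      rw [closure_ball _ hr.ne', mem_closedBall_zero_iff] at hz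
      exact (hQd z hz).continuousAt.continuousWithinAt
    · intro z hz
      rw [frontier_ball _ hr.ne'] at hz
      have hzn : ‖z‖ = r := by simpa using hz
      have hz0 : z ≠ 0 := by
        rintro rfl
        rw [norm_zero] at hzn
        exact hr.ne hzn
      rw [hQne z hz0, norm_div, norm_pow, hzn]
      have h1 : ‖E z‖ ≤ 2 * M := by
        calc ‖E z‖ ≤ ‖(f z)^[n] (u z)‖ + ‖(f z)^[n] (w z)‖ := norm_sub_le _ _
          _ ≤ M + M := add_le_add (hM _ (hub n le_rfl z hzn.le)) (hM _ (hwb n le_rfl z hzn.le))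
          _ = 2 * M := by ring
      exact div_le_div_of_nonneg_right h1 (by positivity)
  rw [hQ0, norm_mul, le_div_iff₀ (by positivity)] at hmax
  rw [mul_comm ‖κ‖]
  exact hmax

/-- If `Δ(0) = 0` and `Δ'(b) = k b ^ (k - 1) g(b)` with `g(b) / b → γ`, then
`Δ(b) / b ^ (k + 1) → k γ / (k + 1)`. -/
theorem integrate_lim {k : ℕ} (hk : 1 ≤ k) {Δ g : ℂ → ℂ} {γ : ℂ} (h0 : Δ 0 = 0)
    (hd : ∀ᶠ b in 𝓝 (0 : ℂ), HasDerivAt Δ (k * b ^ (k - 1) * g b) b)
    (hγ : (fun b => g b - γ * b) =o[𝓝 0] fun b : ℂ => b) :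
    Tendsto (fun b => Δ b / b ^ (k + 1)) (𝓝[≠] 0) (𝓝 (k * γ / (k + 1))) := by
  have hk1 : (k : ℂ) + 1 ≠ 0 := Nat.cast_add_one_ne_zero k
  set Z : ℂ → ℂ := fun b => Δ b - k * γ / (k + 1) * b ^ (k + 1) with hZ
  have hZ0 : Z 0 = 0 := by simp [hZ, h0]
  have hZd : ∀ᶠ b in 𝓝 (0 : ℂ), HasDerivAt Z (k * b ^ (k - 1) * (g b - γ * b)) b := by
    filter_upwards [hd] with b hb
    have h1 := hb.sub (((hasDerivAt_id b).pow (k + 1)).const_mul (k * γ / (k + 1) : ℂ))
    refine h1.congr_deriv ?_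
    obtain ⟨j, rfl⟩ : ∃ j, k = j + 1 := ⟨k - 1, by omega⟩
    simp only [Nat.add_sub_cancel, id, mul_one, Nat.cast_add, Nat.cast_one]
    rw [pow_succ]
    have : (j : ℂ) + 1 + 1 ≠ 0 := by
      have := Nat.cast_add_one_ne_zero (R := ℂ) (j + 1)
      push_cast at this
      exact this
    field_simp
  have hkey : Tendsto (fun b => Z b / b ^ (k + 1)) (𝓝[≠] 0) (𝓝 0) := by
    rw [Metric.tendsto_nhds]
    intro ε hε
    have h1 := hγ.def (show 0 < ε / (2 * (k + 1)) by positivity)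
    obtain ⟨η, hη, hηs⟩ := Metric.mem_nhds_iff.1 (hZd.and h1)
    filter_upwards [self_mem_nhdsWithin, nhdsWithin_le_nhds (ball_mem_nhds (0 : ℂ) hη)] with b hb hbη
    rw [mem_ball_zero_iff] at hbη
    have hb0 : 0 < ‖b‖ := norm_pos_iff.2 hb
    have h2 : ‖Z b - Z 0‖ ≤ (k * ‖b‖ ^ (k - 1) * (ε / (2 * (k + 1)) * ‖b‖)) * ‖b - 0‖ := by
      refine (convex_closedBall (0 : ℂ) ‖b‖).norm_image_sub_le_of_norm_hasDerivWithin_le
        (f := Z) (f' := fun t => k * t ^ (k - 1) * (g t - γ * t)) ?_ ?_ ?_ ?_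
      · intro t ht
        rw [mem_closedBall_zero_iff] at ht
        have h3 : t ∈ ball (0 : ℂ) η := by
          rw [mem_ball_zero_iff]; exact lt_of_le_of_lt ht hbη
        exact (hηs h3).1.hasDerivWithinAt
      · intro t ht
        rw [mem_closedBall_zero_iff] at ht
        have h3 : t ∈ ball (0 : ℂ) η := by
          rw [mem_ball_zero_iff]; exact lt_of_le_of_lt ht hbη
        have h4 := (hηs h3).2
        rw [norm_mul, norm_mul, norm_pow, Complex.norm_natCast]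
        have h5 : ‖g t - γ * t‖ ≤ ε / (2 * (k + 1)) * ‖b‖ :=
          h4.trans (mul_le_mul_of_nonneg_left ht (by positivity))
        exact mul_le_mul (mul_le_mul_of_nonneg_left (pow_le_pow_left₀ (norm_nonneg _) ht _)
          (by positivity)) h5 (norm_nonneg _) (by positivity)
      · exact mem_closedBall_self hb0.le
      · rw [mem_closedBall_zero_iff]
    rw [hZ0, sub_zero, sub_zero] at h2
    rw [dist_zero_right, norm_div, norm_pow, div_lt_iff₀ (by positivity)]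
    refine lt_of_le_of_lt h2 ?_
    obtain ⟨j, rfl⟩ : ∃ j, k = j + 1 := ⟨k - 1, by omega⟩
    simp only [Nat.add_sub_cancel, Nat.cast_add, Nat.cast_one]
    have h6 : ((j : ℝ) + 1) * ‖b‖ ^ j * (ε / (2 * ((j : ℝ) + 1 + 1)) * ‖b‖) * ‖b‖ =
        (((j : ℝ) + 1) / (2 * ((j : ℝ) + 1 + 1))) * (ε * ‖b‖ ^ (j + 1 + 1)) := by
      rw [pow_succ, pow_succ]
      field_simp
    rw [h6]
    have h7 : ((j : ℝ) + 1) / (2 * ((j : ℝ) + 1 + 1)) < 1 := by
      rw [div_lt_one (by positivity)]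
      have : (0 : ℝ) ≤ j := Nat.cast_nonneg j
      linarith
    have h8 : 0 < ε * ‖b‖ ^ (j + 1 + 1) := by positivity
    nlinarith
  have h3 := hkey.add_const (k * γ / (k + 1) : ℂ)
  rw [zero_add] at h3
  refine h3.congr' ?_
  filter_upwards [self_mem_nhdsWithin] with b hb
  have hb' : b ^ (k + 1) ≠ 0 := pow_ne_zero _ hb
  simp only [hZ]
  field_simp
  ring

end Pool.Agent.H792R2.Rt
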