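import Pool.Agent.H792R2.Rat.Grow

set_option autoImplicit false

open Filter Topology Metric Set Polynomial

namespace Pool.Agent.H792R2.Rt

/-- Puiseux parametrisation of the roots of `N₀ + b ^ k N₁` near a root `c` of `N₀` of
multiplicity `k` with `N₁ c ≠ 0`. -/
theorem branch {N₀ N₁ : ℂ[X]} {c : ℂ} {k : ℕ} (hk : 1 ≤ k) {G : ℂ[X]}
    (hN₀ : N₀ = (X - C c) ^ k * G) (hG : G.eval c ≠ 0) (hN₁ : N₁.eval c ≠ 0) :
    ∃ (τ : ℂ → ℂ) (t : ℂ) (ρ : ℝ), 0 < ρ ∧ t ≠ 0 ∧ τ 0 = c ∧ HasDerivAt τ t 0 ∧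
      (∀ b, ‖b‖ < ρ → DifferentiableAt ℂ τ b) ∧
      (∀ b, ‖b‖ < ρ → N₀.eval (τ b) + b ^ k * N₁.eval (τ b) = 0) ∧
      ∀ z b, ‖z - c‖ < ρ → ‖b‖ < ρ → N₀.eval z + b ^ k * N₁.eval z = 0 →
        ∃ ω : ℂ, ω ^ k = 1 ∧ z = τ (ω * b) := by
  have hk0 : k ≠ 0 := by omega
  set θ : ℂ → ℂ := fun z => -G.eval z / N₁.eval z with hθ
  have hθc : θ c ≠ 0 := div_ne_zero (neg_ne_zero.2 hG) hN₁
  obtain ⟨lam, hlam⟩ := IsAlgClosed.exists_pow_nat_eq (θ c) (show 0 < k by omega)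
  have hlam0 : lam ≠ 0 := by
    rintro rfl
    rw [zero_pow hk0] at hlam
    exact hθc hlam.symm
  set ϑ : ℂ → ℂ := fun z => lam * (θ z / θ c) ^ ((k : ℂ)⁻¹) with hϑ
  have hϑk : ∀ z, ϑ z ^ k = θ z := by
    intro z
    simp only [hϑ]
    rw [mul_pow, hlam, Complex.cpow_nat_inv_pow _ hk0, mul_div_cancel₀ _ hθc]
  have hϑc : ϑ c = lam := by
    simp only [hϑ]
    rw [div_self hθc, Complex.one_cpow, mul_one]
  have hGa : AnalyticAt ℂ (fun z => G.eval z) c := by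
    exact G.differentiable.analyticAt c
  have hNa : AnalyticAt ℂ (fun z => N₁.eval z) c := N₁.differentiable.analyticAt c
  have hθa : AnalyticAt ℂ θ c := hGa.neg.div hNa hN₁
  have hϑa : AnalyticAt ℂ ϑ c := by
    refine analyticAt_const.mul ?_
    refine (hθa.div analyticAt_const hθc).cpow analyticAt_const ?_
    change θ c / θ c ∈ Complex.slitPlane
    rw [div_self hθc]
    exact Complex.one_mem_slitPlane
  set φ : ℂ → ℂ := fun z => (z - c) * ϑ z with hφ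
  have hφa : AnalyticAt ℂ φ c := (analyticAt_id.sub analyticAt_const).mul hϑa
  have hφc : φ c = 0 := by simp [hφ]
  have hφd : HasStrictDerivAt φ lam c := by
    have h1 : HasStrictDerivAt (fun z : ℂ => z - c) 1 c := (hasStrictDerivAt_id c).sub_const c
    have h2 : HasStrictDerivAt ϑ (deriv ϑ c) c := hϑa.hasStrictDerivAt
    have h3 := h1.mul h2
    refine h3.congr_deriv ?_
    rw [hϑc, sub_self, zero_mul, one_mul, add_zero]
  have hφcd : ContDiffAt ℂ 1 φ c := hφa.contDiffAt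
  set f' : ℂ ≃L[ℂ] ℂ := ContinuousLinearEquiv.unitsEquivAut ℂ (Units.mk0 lam hlam0) with hf'
  have hfd : HasFDerivAt φ (f' : ℂ →L[ℂ] ℂ) c := by
    have h1 := hφd.hasDerivAt.hasFDerivAt
    refine h1.congr_fderiv ?_
    ext
    simp [hf']
  have hsf : HasStrictFDerivAt φ (f' : ℂ →L[ℂ] ℂ) c :=
    hφcd.hasStrictFDerivAt' hfd (by norm_num)
  set τ : ℂ → ℂ := hsf.localInverse φ f' c with hτ
  have hτ0 : τ 0 = c := by
    have h1 := hsf.localInverse_apply_image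
    rw [hφc] at h1
    exact h1
  have hτcd : ContDiffAt ℂ 1 τ 0 := by
    have h1 := ContDiffAt.to_localInverse hφcd hfd (by norm_num)
    rw [hφc] at h1
    exact h1
  have hτd : HasDerivAt τ lam⁻¹ 0 := by
    have h1 : HasStrictFDerivAt τ (f'.symm : ℂ →L[ℂ] ℂ) (φ c) := hsf.to_localInverse
    rw [hφc] at h1
    have h2 := h1.hasFDerivAt.hasDerivAt
    refine h2.congr_deriv ?_
    have h3 : f' lam⁻¹ = 1 := by
      simp [hf', hlam0]
    have h4 : (f'.symm : ℂ →L[ℂ] ℂ) 1 = f'.symm 1 := rfl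
    rw [h4, ← h3, f'.symm_apply_apply]
  have hev1 : ∀ᶠ b in 𝓝 (0 : ℂ), φ (τ b) = b := by
    have h1 := hsf.eventually_right_inverse
    rw [hφc] at h1
    exact h1
  have hev2 : ∀ᶠ z in 𝓝 c, τ (φ z) = z := hsf.eventually_left_inverse
  have hev3 : ∀ᶠ b in 𝓝 (0 : ℂ), DifferentiableAt ℂ τ b := by
    filter_upwards [hτcd.eventually (by norm_num)] with b hb
    exact hb.differentiableAt (by norm_num)
  have hev4 : ∀ᶠ z in 𝓝 c, N₁.eval z ≠ 0 := N₁.continuous.continuousAt.eventually_ne hN₁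
  have hev5 : ∀ᶠ b in 𝓝 (0 : ℂ), N₁.eval (τ b) ≠ 0 := by
    have h1 : ContinuousAt τ 0 := hτd.continuousAt
    have h2 : Tendsto τ (𝓝 0) (𝓝 c) := by
      have := h1.tendsto
      rwa [hτ0] at this
    exact h2.eventually hev4
  have hpow : ∀ z, N₁.eval z ≠ 0 → φ z ^ k * N₁.eval z = -N₀.eval z := by
    intro z hz
    simp only [hφ]
    rw [mul_pow, hϑk, hN₀]
    simp only [hθ, Polynomial.eval_mul, Polynomial.eval_pow, Polynomial.eval_sub,
      Polynomial.eval_X, Polynomial.eval_C]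
    field_simp
  obtain ⟨ρ₁, hρ₁, h₁⟩ := Metric.mem_nhds_iff.1 (hev1.and (hev3.and hev5))
  obtain ⟨ρ₂, hρ₂, h₂⟩ := Metric.mem_nhds_iff.1 (hev2.and hev4)
  refine ⟨τ, lam⁻¹, min ρ₁ ρ₂, lt_min hρ₁ hρ₂, inv_ne_zero hlam0, hτ0, hτd, ?_, ?_, ?_⟩
  · intro b hb
    exact (h₁ (mem_ball_zero_iff.2 (lt_of_lt_of_le hb (min_le_left _ _)))).2.1
  · intro b hb
    obtain ⟨e1, -, e2⟩ := h₁ (mem_ball_zero_iff.2 (lt_of_lt_of_le hb (min_le_left _ _)))
    have h3 := hpow _ e2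
    rw [e1] at h3
    rw [h3]
    ring
  · intro z b hz hb h
    obtain ⟨e1, e2⟩ := h₂ (mem_ball_iff_norm.2 (lt_of_lt_of_le hz (min_le_right _ _)))
    have h3 := hpow z e2
    have h4 : φ z ^ k = b ^ k := by
      have h5 : φ z ^ k * N₁.eval z = b ^ k * N₁.eval z := by
        rw [h3]
        linear_combination -h
      exact mul_right_cancel₀ e2 h5
    by_cases hb0 : b = 0
    · refine ⟨1, one_pow _, ?_⟩
      rw [hb0, zero_pow hk0] at h4
      have h5 := pow_eq_zero_iff hk0 |>.1 h4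
      rw [hb0, mul_zero, hτ0, ← e1, h5, hτ0]
    · refine ⟨φ z / b, ?_, ?_⟩
      · rw [div_pow, h4, div_self (pow_ne_zero _ hb0)]
      · rw [div_mul_cancel₀ _ hb0, e1]

/-- difference of the critical values after splitting -/
theorem split_lim {P Q H : ℂ[X]} {c : ℂ} {k : ℕ} (hk : 1 ≤ k) {τ : ℂ → ℂ} {t : ℂ} {ρ : ℝ}
    (hρ : 0 < ρ) (ht : t ≠ 0) (hτ0 : τ 0 = c) (hτd : HasDerivAt τ t 0)
    (hτD : ∀ b, ‖b‖ < ρ → DifferentiableAt ℂ τ b)
    (hcrit : ∀ b, ‖b‖ < ρ → (derivative P * Q - P * derivative Q).eval (τ b) +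
      b ^ k * (derivative H * Q - H * derivative Q).eval (τ b) = 0)
    (hQ : Q.eval c ≠ 0) (hN₁ : (derivative H * Q - H * derivative Q).eval c ≠ 0)
    {ω : ℂ} (hω : ω ^ k = 1) (hω1 : ω ≠ 1) :
    ∃ κ : ℂ, κ ≠ 0 ∧ Tendsto (fun b : ℂ =>
      ((P.eval (τ b) + b ^ k * H.eval (τ b)) / Q.eval (τ b) -
        (P.eval (τ (ω * b)) + b ^ k * H.eval (τ (ω * b))) / Q.eval (τ (ω * b))) / b ^ (k + 1))
      (𝓝[≠] 0) (𝓝 κ) := by
  have hk0 : k ≠ 0 := by omega
  have hωn : ‖ω‖ = 1 := by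
    have h1 : ‖ω‖ ^ k = 1 := by rw [← norm_pow, hω, norm_one]
    exact (pow_eq_one_iff_of_nonneg (norm_nonneg _) hk0).1 h1
  set h : ℂ → ℂ := fun z => H.eval z / Q.eval z with hh
  have hhd : ∀ z, Q.eval z ≠ 0 → HasDerivAt h
      ((derivative H * Q - H * derivative Q).eval z / Q.eval z ^ 2) z := by
    intro z hz
    have h1 := (H.hasDerivAt z).div (Q.hasDerivAt z) hz
    refine h1.congr_deriv ?_
    simp [Polynomial.eval_sub, Polynomial.eval_mul]
  set Λ : ℂ → ℂ := fun b => (P.eval (τ b) + b ^ k * H.eval (τ b)) / Q.eval (τ b) with hΛ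
  have hevQ : ∀ᶠ b in 𝓝 (0 : ℂ), Q.eval (τ b) ≠ 0 ∧ ‖b‖ < ρ := by
    have h1 : Tendsto τ (𝓝 0) (𝓝 c) := by
      have := hτd.continuousAt.tendsto
      rwa [hτ0] at this
    have h2 := h1.eventually (Q.continuous.continuousAt.eventually_ne hQ)
    have h3 : ball (0 : ℂ) ρ ∈ 𝓝 (0 : ℂ) := ball_mem_nhds _ hρ
    filter_upwards [h2, h3] with b hb hb2
    exact ⟨hb, mem_ball_zero_iff.1 hb2⟩
  have hΛd : ∀ᶠ b in 𝓝 (0 : ℂ), HasDerivAt Λ (k * b ^ (k - 1) * h (τ b)) b := by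
    filter_upwards [hevQ] with b hb
    obtain ⟨hb1, hb2⟩ := hb
    have hτb : HasDerivAt τ (deriv τ b) b := (hτD b hb2).hasDerivAt
    have hP : HasDerivAt (fun b => P.eval (τ b)) ((derivative P).eval (τ b) * deriv τ b) b :=
      (P.hasDerivAt (τ b)).comp b hτb
    have hH : HasDerivAt (fun b => H.eval (τ b)) ((derivative H).eval (τ b) * deriv τ b) b :=
      (H.hasDerivAt (τ b)).comp b hτb
    have hQd : HasDerivAt (fun b => Q.eval (τ b)) ((derivative Q).eval (τ b) * deriv τ b) b :=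
      (Q.hasDerivAt (τ b)).comp b hτb
    have hpw : HasDerivAt (fun b : ℂ => b ^ k) (k * b ^ (k - 1)) b := by
      simpa using hasDerivAt_pow k b
    have h1 := (hP.add (hpw.mul hH)).div hQd hb1
    refine h1.congr_deriv ?_
    have h2 := hcrit b hb2
    simp only [Polynomial.eval_sub, Polynomial.eval_mul] at h2
    simp only [hh, Pi.add_apply, Pi.mul_apply]
    field_simp
    linear_combination (deriv τ b) * h2
  set g : ℂ → ℂ := fun b => h (τ b) - h (τ (ω * b)) with hg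
  set γ : ℂ := (derivative H * Q - H * derivative Q).eval c / Q.eval c ^ 2 * t * (1 - ω) with hγ
  have hγ0 : γ ≠ 0 := mul_ne_zero (mul_ne_zero (div_ne_zero hN₁ (pow_ne_zero _ hQ)) ht)
    (sub_ne_zero.2 hω1.symm)
  have hgd : HasDerivAt g γ 0 := by
    have h1 : HasDerivAt (fun b => h (τ b))
        ((derivative H * Q - H * derivative Q).eval c / Q.eval c ^ 2 * t) 0 := by
      have h2 := hhd c hQ
      rw [← hτ0] at h2
      have h3 := h2.comp (0 : ℂ) hτd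
      rw [hτ0] at h3
      exact h3
    have h4 : HasDerivAt (fun b : ℂ => h (τ (ω * b)))
        ((derivative H * Q - H * derivative Q).eval c / Q.eval c ^ 2 * t * ω) 0 := by
      have h5 : HasDerivAt (fun b : ℂ => ω * b) ω 0 := by
        simpa using (hasDerivAt_id (0 : ℂ)).const_mul ω
      have h6 : HasDerivAt (fun b => h (τ b))
          ((derivative H * Q - H * derivative Q).eval c / Q.eval c ^ 2 * t) (ω * 0) := by
        rw [mul_zero]; exact h1
      exact h6.comp (0 : ℂ) h5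
    have h7 := h1.sub h4
    refine h7.congr_deriv ?_
    rw [hγ]; ring
  have hg0 : g 0 = 0 := by simp [hg]
  have hgo : (fun b => g b - γ * b) =o[𝓝 0] fun b : ℂ => b := by
    have h1 := hgd.isLittleO
    simpa [hg0, mul_comm] using h1
  have hΔ : ∀ᶠ b in 𝓝 (0 : ℂ), HasDerivAt (fun b => Λ b - Λ (ω * b)) (k * b ^ (k - 1) * g b) b := by
    have h1 : Tendsto (fun b : ℂ => ω * b) (𝓝 0) (𝓝 0) := by
      have : Continuous (fun b : ℂ => ω * b) := by fun_prop
      simpa using this.tendsto 0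
    filter_upwards [hΛd, h1.eventually hΛd] with b hb hb2
    have h5 : HasDerivAt (fun b : ℂ => ω * b) ω b := by
      simpa using (hasDerivAt_id b).const_mul ω
    have h6 := hb.sub (hb2.comp b h5)
    refine h6.congr_deriv ?_
    have h7 : (ω * b) ^ (k - 1) * ω = b ^ (k - 1) := by
      obtain ⟨j, rfl⟩ : ∃ j, k = j + 1 := ⟨k - 1, by omega⟩
      simp only [Nat.add_sub_cancel]
      rw [mul_pow]
      have : ω ^ j * ω = 1 := by rw [← pow_succ]; exact hω
      linear_combination b ^ j * this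
    simp only [hg]
    linear_combination (-(k : ℂ) * h (τ (ω * b))) * h7
  have hlim := integrate_lim hk (Δ := fun b => Λ b - Λ (ω * b)) (by simp) hΔ hgo
  refine ⟨k * γ / (k + 1), ?_, ?_⟩
  · refine div_ne_zero (mul_ne_zero (by exact_mod_cast hk0) hγ0) (Nat.cast_add_one_ne_zero k)
  · refine hlim.congr fun b => ?_
    simp only [hΛ]
    rw [mul_pow, hω, one_mul]

end Pool.Agent.H792R2.Rt
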