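import Pool.Agent.H792R2.Dyn.Growth

set_option autoImplicit false

open Filter Topology Metric Set

namespace Pool.Agent.H792R2.Rt

open Pool.Agent.H792R2.Dyn (gaps select)

/-- iterates of a family which is `C^1` at the points of a set `W` only -/
theorem iter_at {f : ℂ → ℂ → ℂ} {W : Set (ℂ × ℂ)}
    (hf : ∀ p ∈ W, ContDiffAt ℂ 1 (fun p : ℂ × ℂ => f p.1 p.2) p) {a z : ℂ} (n : ℕ)
    (h : ∀ i < n, (a, (f a)^[i] z) ∈ W) :
    ContDiffAt ℂ 1 (fun p : ℂ × ℂ => (f p.1)^[n] p.2) (a, z) := by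
  induction n with
  | zero => simpa using contDiffAt_snd
  | succ n ih =>
    have h1 := ih (fun i hi => h i (by omega))
    have h2 : (fun p : ℂ × ℂ => (f p.1)^[n + 1] p.2) =
        (fun q : ℂ × ℂ => f q.1 q.2) ∘ fun p : ℂ × ℂ => (p.1, (f p.1)^[n] p.2) := by
      ext p
      simp only [Function.comp, Function.iterate_succ_apply']
    rw [h2]
    exact ContDiffAt.comp _ (hf _ (h n (Nat.lt_succ_self n))) (contDiffAt_fst.prodMk h1)

/-- the orbit of a holomorphically moving point is holomorphic in the parameter -/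
theorem orbit_diffAt {f : ℂ → ℂ → ℂ} {W : Set (ℂ × ℂ)}
    (hf : ∀ p ∈ W, ContDiffAt ℂ 1 (fun p : ℂ × ℂ => f p.1 p.2) p) {ζ : ℂ → ℂ} {a : ℂ}
    (hζ : DifferentiableAt ℂ ζ a) (n : ℕ) (h : ∀ i < n, (a, (f a)^[i] (ζ a)) ∈ W) :
    DifferentiableAt ℂ (fun b => (f b)^[n] (ζ b)) a := by
  have h1 : DifferentiableAt ℂ (fun p : ℂ × ℂ => (f p.1)^[n] p.2) (a, ζ a) :=
    (iter_at hf n h).differentiableAt (by norm_num)
  exact DifferentiableAt.comp (g := fun p : ℂ × ℂ => (f p.1)^[n] p.2)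
    (f := fun b : ℂ => ((b, ζ b) : ℂ × ℂ)) a h1 (differentiableAt_id.prodMk hζ)

/-- **Simultaneous escape principle, local form.** -/
theorem principle_loc {ι : Type} [Fintype ι] {f : ℂ → ℂ → ℂ} {W : Set (ℂ × ℂ)}
    (hf : ∀ p ∈ W, ContDiffAt ℂ 1 (fun p : ℂ × ℂ => f p.1 p.2) p)
    {K : Set ℂ} (hK : IsCompact K) {ρ δ₁ : ℝ} (hρ : 0 < ρ) (hδ₁ : 0 < δ₁)
    (hKW : ∀ a z, ‖a‖ < ρ → z ∈ cthickening δ₁ K → (a, z) ∈ W)
    (A : ℂ → ℂ → Prop) (hstep : ∀ a z, (a, z) ∈ W → A a (f a z) → A a z)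
    (hstab : ∀ z, A 0 z → ∀ᶠ p : ℂ × ℂ in 𝓝 (0, z), A p.1 p.2)
    (hdense : Dense {z | A 0 z})
    (ζ : ι → ℂ → ℂ) (hζ : ∀ i, ∀ a, ‖a‖ < ρ → DifferentiableAt ℂ (ζ i) a)
    (hb : ∀ i n, (f 0)^[n] (ζ i 0) ∈ K)
    {μ : ℝ} (hμ : 1 < μ) (D : ℕ) (C : ℝ)
    (hgrow : ∃ᶠ n : ℕ in atTop, ∀ i, ∀ r, 0 < r → r < ρ →
      (∀ m ≤ n, ∀ a, ‖a‖ ≤ r → (f a)^[m] (ζ i a) ∈ cthickening δ₁ K) → μ ^ n * r ^ D ≤ C) :
    ∀ δ > 0, ∃ a : ℂ, ‖a‖ < δ ∧ ‖a‖ < ρ ∧ ∀ i, A a (ζ i a) := by
  classical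
  intro δ hδ
  set y : ι → ℂ → ℕ → ℂ := fun i a m => (f a)^[m] (ζ i a) with hy
  set K₁ : Set ℂ := cthickening δ₁ K with hK₁
  have hKK₁ : K ⊆ K₁ := self_subset_cthickening K
  have hK₁c : IsCompact K₁ := hK.cthickening
  have hysucc : ∀ i a m, y i a (m + 1) = f a (y i a m) := by
    intro i a m
    simp only [hy, Function.iterate_succ_apply']
  -- initial radius
  obtain ⟨ρ₁, hρ₁, hρ₁ρ, hinit⟩ : ∃ ρ₁ > 0, ρ₁ < ρ ∧ ∀ i a, ‖a‖ ≤ ρ₁ → ζ i a ∈ K₁ := by
    have h1 : ∀ᶠ a : ℂ in 𝓝 0, ∀ i, ζ i a ∈ thickening δ₁ K := by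
      rw [Filter.eventually_all]
      intro i
      have h0 : ζ i 0 ∈ thickening δ₁ K := by
        have := hb i 0
        simp only [Function.iterate_zero, id] at this
        exact self_subset_thickening hδ₁ K this
      exact (hζ i 0 (by simpa using hρ)).continuousAt.eventually (isOpen_thickening.mem_nhds h0)
    obtain ⟨η, hη, hηs⟩ := Metric.mem_nhds_iff.1 h1
    refine ⟨min (η / 2) (ρ / 2), by positivity, ?_, ?_⟩
    · exact lt_of_le_of_lt (min_le_right _ _) (by linarith)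
    · intro i a ha
      have h2 : a ∈ ball (0 : ℂ) η := by
        rw [mem_ball_zero_iff]
        exact lt_of_le_of_lt (ha.trans (min_le_left _ _)) (by linarith)
      exact thickening_subset_cthickening _ _ (hηs h2 i)
  set r : ℕ → ℝ := fun j => ρ₁ / 2 ^ j with hr
  have hrpos : ∀ j, 0 < r j := fun j => by positivity
  have hrle : ∀ j, r j ≤ ρ₁ := fun j => div_le_self hρ₁.le (one_le_pow₀ (by norm_num))
  have hrlt : ∀ j, r j < ρ := fun j => lt_of_le_of_lt (hrle j) hρ₁ρ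
  have hrsucc : ∀ j, r (j + 1) = r j / 2 := by
    intro j
    simp only [hr, pow_succ]
    field_simp
  -- exit times
  have hexit : ∀ n, (∀ i, ∀ r, 0 < r → r < ρ →
      (∀ m ≤ n, ∀ a, ‖a‖ ≤ r → (f a)^[m] (ζ i a) ∈ K₁) → μ ^ n * r ^ D ≤ C) →
      ∀ j, C < μ ^ n * (r j) ^ D → ∀ i, ∃ m ≤ n, ∃ a, ‖a‖ ≤ r j ∧ y i a m ∉ K₁ := by
    intro n hn j hj i
    by_contra hcon
    push Not at hcon
    have := hn i (r j) (hrpos j) (hrlt j) (fun m hm a ha => hcon m hm a ha)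
    linarith
  have hex : ∀ i j, ∃ m, ∃ a, ‖a‖ ≤ r j ∧ y i a m ∉ K₁ := by
    intro i j
    have h1 : Tendsto (fun n : ℕ => μ ^ n * (r j) ^ D) atTop atTop :=
      (tendsto_pow_atTop_atTop_of_one_lt hμ).atTop_mul_const (pow_pos (hrpos j) D)
    obtain ⟨n, hn, hn2⟩ := (hgrow.and_eventually (h1.eventually (eventually_gt_atTop C))).exists
    obtain ⟨m, -, a, ha, ha2⟩ := hexit n hn j hn2 i
    exact ⟨m, a, ha, ha2⟩
  set e : ι → ℕ → ℕ := fun i j => Nat.find (hex i j) with he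
  have hespec : ∀ i j, ∃ a, ‖a‖ ≤ r j ∧ y i a (e i j) ∉ K₁ := fun i j => Nat.find_spec (hex i j)
  have hemin : ∀ i j m, m < e i j → ∀ a, ‖a‖ ≤ r j → y i a m ∈ K₁ := by
    intro i j m hm a ha
    have := Nat.find_min (hex i j) hm
    push Not at this
    exact this a ha
  have hele : ∀ i j m, (∃ a, ‖a‖ ≤ r j ∧ y i a m ∉ K₁) → e i j ≤ m :=
    fun i j m h => Nat.find_min' (hex i j) h
  have hemono : ∀ i j, e i j ≤ e i (j + 1) := by
    intro i j
    obtain ⟨a, ha, ha2⟩ := hespec i (j + 1)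
    refine hele i j _ ⟨a, ha.trans ?_, ha2⟩
    rw [hrsucc]
    linarith [hrpos j]
  have hepos : ∀ i j, 1 ≤ e i j := by
    intro i j
    by_contra hcon
    have h0 : e i j = 0 := by omega
    obtain ⟨a, ha, ha2⟩ := hespec i j
    rw [h0] at ha2
    have := hinit i a (ha.trans (hrle j))
    simp only [hy, Function.iterate_zero, id] at ha2
    exact ha2 this
  -- linear growth along a sequence
  obtain ⟨q, hq0, hq⟩ : ∃ q : ℕ, 0 < q ∧ ∃ᶠ J in atTop, ∀ i, e i J ≤ q * (J + 1) := by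
    have hs1 : 1 < Real.sqrt μ := by
      rw [Real.lt_sqrt (by norm_num)]; simpa using hμ
    set ν := Real.sqrt μ with hν
    have hνsq : ν ^ 2 = μ := Real.sq_sqrt (by linarith)
    obtain ⟨q, hq⟩ := pow_unbounded_of_one_lt ((2 : ℝ) ^ D) hs1
    have hq' : (2 : ℝ) ^ D ≤ ν ^ (q + 1) := by
      refine hq.le.trans ?_
      exact pow_le_pow_right₀ hs1.le (Nat.le_succ q)
    refine ⟨q + 1, Nat.succ_pos q, ?_⟩
    rw [Filter.frequently_atTop]
    intro J₀
    have h1 : Tendsto (fun n : ℕ => ν ^ n * ρ₁ ^ D) atTop atTop :=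
      (tendsto_pow_atTop_atTop_of_one_lt hs1).atTop_mul_const (pow_pos hρ₁ D)
    obtain ⟨n, hn, hn2, hn3⟩ := (hgrow.and_eventually ((h1.eventually
      (eventually_gt_atTop C)).and (eventually_ge_atTop ((q + 1) * J₀)))).exists
    have hn3' : (q + 1) * J₀ ≤ n := hn3
    refine ⟨n / (q + 1), ?_, ?_⟩
    · rw [Nat.le_div_iff_mul_le (Nat.succ_pos q)]
      rw [Nat.mul_comm]
      exact hn3'
    · intro i
      have h2 : C < μ ^ n * (r (n / (q + 1))) ^ D := by
        have h3 : ((2 : ℝ) ^ D) ^ (n / (q + 1)) ≤ ν ^ n := by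
          calc ((2 : ℝ) ^ D) ^ (n / (q + 1)) ≤ (ν ^ (q + 1)) ^ (n / (q + 1)) :=
                pow_le_pow_left₀ (by positivity) hq' _
            _ = ν ^ ((q + 1) * (n / (q + 1))) := by rw [← pow_mul]
            _ ≤ ν ^ n := pow_le_pow_right₀ hs1.le (Nat.mul_div_le n (q + 1))
        have h4 : ν ^ n * ρ₁ ^ D ≤ μ ^ n * (r (n / (q + 1))) ^ D := by
          have hpos : (0 : ℝ) < (2 ^ (n / (q + 1))) ^ D := by positivity
          have e1 : ((2 : ℝ) ^ (n / (q + 1))) ^ D = ((2 : ℝ) ^ D) ^ (n / (q + 1)) := by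
            rw [← pow_mul, ← pow_mul, Nat.mul_comm]
          have e2 : μ ^ n = ν ^ n * ν ^ n := by
            rw [← hνsq, ← pow_mul, two_mul, pow_add]
          simp only [hr, div_pow]
          rw [← mul_div_assoc, le_div_iff₀ hpos, e1, e2]
          have hνn : 0 < ν ^ n := by positivity
          have hρD : 0 < ρ₁ ^ D := by positivity
          calc ν ^ n * ρ₁ ^ D * ((2 : ℝ) ^ D) ^ (n / (q + 1))
              ≤ ν ^ n * ρ₁ ^ D * ν ^ n := mul_le_mul_of_nonneg_left h3 (by positivity)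
            _ = ν ^ n * ν ^ n * ρ₁ ^ D := by ring
        linarith
      obtain ⟨m, hm, ha⟩ := hexit n hn _ h2 i
      have h5 : e i (n / (q + 1)) ≤ m := hele i _ m ha
      have h6 : n < (q + 1) * (n / (q + 1) + 1) := by
        have := Nat.lt_mul_div_succ n (Nat.succ_pos q)
        simpa using this
      omega
  have hgap := gaps e hemono q hq
  set B := Fintype.card ι * q + 1 with hB
  choose jj hjj1 hjj2 using hgap
  -- uniform bound on `K₁`
  obtain ⟨M, hM⟩ : ∃ M : ℝ, ∀ z ∈ K₁, ‖z‖ ≤ M := by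
    obtain ⟨M, hM⟩ := hK₁c.isBounded.exists_norm_le
    exact ⟨M, hM⟩
  -- the rescaled functions
  set τ : ι → ℕ → ℕ := fun i k => e i (jj k) - 1 with hτ
  set Y : ι → ℕ → ℂ → ℂ := fun i k α => y i ((r (jj k) : ℂ) * α) (τ i k) with hY
  have hnorm : ∀ k (α : ℂ), ‖(r (jj k) : ℂ) * α‖ = r (jj k) * ‖α‖ := by
    intro k α
    rw [norm_mul, Complex.norm_real, Real.norm_eq_abs, abs_of_pos (hrpos _)]
  have hnle : ∀ k (α : ℂ), ‖α‖ ≤ 1 → ‖(r (jj k) : ℂ) * α‖ ≤ r (jj k) := by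
    intro k α hα
    rw [hnorm]
    nlinarith [hrpos (jj k), norm_nonneg α]
  have hin : ∀ i k (α : ℂ), ‖α‖ ≤ 1 → ∀ m ≤ τ i k, y i ((r (jj k) : ℂ) * α) m ∈ K₁ := by
    intro i k α hα m hm
    have h1 := hepos i (jj k)
    exact hemin i (jj k) m (by simp only [hτ] at hm; omega) _ (hnle k α hα)
  have hYd : ∀ i k, DifferentiableOn ℂ (Y i k) (ball 0 1) := by
    intro i k α hα
    rw [mem_ball_zero_iff] at hα
    have hle := hnle k α hα.le
    have hlt : ‖(r (jj k) : ℂ) * α‖ < ρ := lt_of_le_of_lt hle (hrlt _)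
    have h1 : DifferentiableAt ℂ (fun b => (f b)^[τ i k] (ζ i b)) ((r (jj k) : ℂ) * α) :=
      orbit_diffAt hf (hζ i _ hlt) _ fun m hm => hKW _ _ hlt (hin i k α hα.le m hm.le)
    have h2 : DifferentiableAt ℂ (fun α : ℂ => (r (jj k) : ℂ) * α) α := by fun_prop
    exact (DifferentiableAt.comp (g := fun b => (f b)^[τ i k] (ζ i b))
      (f := fun α : ℂ => (r (jj k) : ℂ) * α) α h1 h2).differentiableWithinAt
  have hYb : ∀ i k, ∀ α ∈ ball (0 : ℂ) 1, ‖Y i k α‖ ≤ M := by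
    intro i k α hα
    rw [mem_ball_zero_iff] at hα
    exact hM _ (hin i k α hα.le _ le_rfl)
  set 𝒰 : Ultrafilter ℕ := hyperfilter ℕ with h𝒰
  have h𝒰le : (𝒰 : Filter ℕ) ≤ atTop := Nat.hyperfilter_le_atTop
  have hlim := fun i => Pool.Agent.Helper114.Montel.montel isOpen_ball (Y i) (hYd i) M (hYb i) 𝒰
  choose Φ hΦd hΦlim using hlim
  have hrt : Tendsto (fun k => r (jj k)) atTop (𝓝 0) := by
    have h1 : Tendsto r atTop (𝓝 0) := by
      simp only [hr]
      exact tendsto_const_nhds.div_atTop (tendsto_pow_atTop_atTop_of_one_lt (by norm_num))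
    exact h1.comp (tendsto_atTop_mono hjj1 tendsto_id)
  -- non-constant limits
  have hnc : ∀ i, ∃ x ∈ ball (0 : ℂ) 1, ∃ z ∈ ball (0 : ℂ) 1, Φ i x ≠ Φ i z := by
    intro i
    by_contra hcon
    push Not at hcon
    have hconst : ∀ x ∈ ball (0 : ℂ) 1, Φ i x = Φ i 0 := fun x hx =>
      hcon x hx 0 (mem_ball_self one_pos)
    have hind : ∀ l : ℕ, ∃ z ∈ K, ∀ ε > 0, ∀ᶠ k in (𝒰 : Filter ℕ),
        ∀ α ∈ closedBall (0 : ℂ) (1 / 2), ‖y i ((r (jj k) : ℂ) * α) (τ i k + l) - z‖ < ε := by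
      intro l
      induction l with
      | zero =>
        refine ⟨Φ i 0, ?_, ?_⟩
        · have h1 : Tendsto (fun k => Y i k 0) 𝒰 (𝓝 (Φ i 0)) :=
            (hΦlim i).tendsto_at (mem_ball_self one_pos)
          refine hK.isClosed.mem_of_tendsto h1 (Eventually.of_forall fun k => ?_)
          simp only [hY, hy, mul_zero]
          exact hb i _
        · intro ε hε
          have h1 : TendstoUniformlyOn (Y i) (Φ i) 𝒰 (closedBall 0 (1 / 2)) := by
            refine (tendstoLocallyUniformlyOn_iff_forall_isCompact isOpen_ball).1 (hΦlim i) _ ?_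
              (isCompact_closedBall _ _)
            exact closedBall_subset_ball (by norm_num)
          rw [Metric.tendstoUniformlyOn_iff] at h1
          filter_upwards [h1 ε hε] with k hk α hα
          have h2 := hk α hα
          rw [hconst α (closedBall_subset_ball (by norm_num) hα), dist_comm, dist_eq_norm] at h2
          exact h2
      | succ l ih =>
        obtain ⟨z, hzK, hz⟩ := ih
        have hzW : ((0 : ℂ), z) ∈ W := hKW 0 z (by simpa using hρ) (hKK₁ hzK)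
        have hcont : ContinuousAt (fun p : ℂ × ℂ => f p.1 p.2) (0, z) := (hf _ hzW).continuousAt
        have hkey : ∀ ε > 0, ∀ᶠ k in (𝒰 : Filter ℕ),
            ∀ α ∈ closedBall (0 : ℂ) (1 / 2),
              ‖y i ((r (jj k) : ℂ) * α) (τ i k + (l + 1)) - f 0 z‖ < ε := by
          intro ε hε
          obtain ⟨η, hη, hη2⟩ := Metric.continuousAt_iff.1 hcont ε hε
          have h1 : ∀ᶠ k in (𝒰 : Filter ℕ), r (jj k) < η :=
            (hrt.mono_left h𝒰le).eventually (Iio_mem_nhds hη)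
          filter_upwards [hz η hη, h1] with k hk hk2 α hα
          have h3 := hk α hα
          have h4 : ‖(r (jj k) : ℂ) * α‖ < η := by
            refine lt_of_le_of_lt (hnle k α ?_) hk2
            rw [mem_closedBall_zero_iff] at hα
            linarith
          have h5 := @hη2 ((r (jj k) : ℂ) * α, y i ((r (jj k) : ℂ) * α) (τ i k + l)) (by
            rw [Prod.dist_eq, max_lt_iff]
            refine ⟨?_, ?_⟩
            · simpa using h4
            · rw [dist_eq_norm]; exact h3)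
          rw [dist_eq_norm] at h5
          rw [← add_assoc, hysucc]
          exact h5
        refine ⟨f 0 z, ?_, hkey⟩
        have h1 : Tendsto (fun k => y i 0 (τ i k + (l + 1))) 𝒰 (𝓝 (f 0 z)) := by
          rw [Metric.tendsto_nhds]
          intro ε hε
          filter_upwards [hkey ε hε] with k hk
          have h2 := hk 0 (mem_closedBall_self (by norm_num))
          rw [mul_zero] at h2
          rw [dist_eq_norm]
          exact h2
        exact hK.isClosed.mem_of_tendsto h1 (Eventually.of_forall fun k => hb i _)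
    choose zl hzl hzl2 using hind
    have hall : ∀ᶠ k in (𝒰 : Filter ℕ), ∀ l ∈ Finset.range (B + 1),
        ∀ α ∈ closedBall (0 : ℂ) (1 / 2),
          ‖y i ((r (jj k) : ℂ) * α) (τ i k + l) - zl l‖ < δ₁ := by
      rw [Filter.eventually_all_finset]
      intro l _
      exact hzl2 l δ₁ hδ₁
    obtain ⟨k, hk⟩ := hall.exists
    obtain ⟨a, ha, ha2⟩ := hespec i (jj k + 1)
    have h1 := hepos i (jj k)
    have h2 := hjj2 k i
    have h3 := hemono i (jj k)
    have hl : e i (jj k + 1) = τ i k + (e i (jj k + 1) - τ i k) := by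
      simp only [hτ]; omega
    have hlB : e i (jj k + 1) - τ i k ∈ Finset.range (B + 1) := by
      rw [Finset.mem_range]
      simp only [hτ]; omega
    have hr0 : (r (jj k) : ℂ) ≠ 0 := by exact_mod_cast (hrpos (jj k)).ne'
    have hα : a / (r (jj k) : ℂ) ∈ closedBall (0 : ℂ) (1 / 2) := by
      rw [mem_closedBall_zero_iff, norm_div, Complex.norm_real, Real.norm_eq_abs,
        abs_of_pos (hrpos _), div_le_iff₀ (hrpos _)]
      rw [hrsucc] at ha
      linarith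
    have h4 := hk _ hlB _ hα
    rw [mul_div_cancel₀ _ hr0, ← hl] at h4
    apply ha2
    refine mem_cthickening_of_dist_le _ (zl (e i (jj k + 1) - τ i k)) _ _ (hzl _) ?_
    rw [dist_eq_norm]
    exact h4.le
  have hBo : IsOpen {z | A 0 z} := by
    rw [isOpen_iff_mem_nhds]
    intro z hz
    have h1 := hstab z hz
    have h2 : Tendsto (fun w : ℂ => ((0 : ℂ), w)) (𝓝 z) (𝓝 ((0 : ℂ), z)) := by
      have : Continuous (fun w : ℂ => ((0 : ℂ), w)) := by fun_prop
      exact this.tendsto z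
    exact h2.eventually h1
  obtain ⟨α₀, hα₀, hsel⟩ := select Φ hΦd hnc hBo hdense
  have hα₀' : ‖α₀‖ ≤ 1 := by
    rw [mem_ball_zero_iff] at hα₀
    exact hα₀.le
  have hat : Tendsto (fun k => (r (jj k) : ℂ) * α₀) 𝒰 (𝓝 0) := by
    have h1 : Tendsto (fun k => (r (jj k) : ℂ)) 𝒰 (𝓝 ((0 : ℝ) : ℂ)) :=
      (Complex.continuous_ofReal.tendsto 0).comp (hrt.mono_left h𝒰le)
    have h2 := h1.mul_const α₀
    simpa using h2
  have hfin : ∀ i, ∀ᶠ k in (𝒰 : Filter ℕ), A ((r (jj k) : ℂ) * α₀)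
      (ζ i ((r (jj k) : ℂ) * α₀)) := by
    intro i
    have h1 := hstab _ (hsel i)
    have h2 : Tendsto (fun k => (((r (jj k) : ℂ) * α₀, Y i k α₀) : ℂ × ℂ)) 𝒰
        (𝓝 ((0 : ℂ), Φ i α₀)) := hat.prodMk_nhds ((hΦlim i).tendsto_at hα₀)
    filter_upwards [h2.eventually h1] with k hk
    have hlt : ‖(r (jj k) : ℂ) * α₀‖ < ρ := lt_of_le_of_lt (hnle k α₀ hα₀') (hrlt _)
    have hback : ∀ m ≤ τ i k, A ((r (jj k) : ℂ) * α₀) (y i ((r (jj k) : ℂ) * α₀) (τ i k - m)) := by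
      intro m
      induction m with
      | zero => intro _; exact hk
      | succ m ih =>
        intro hm
        have h3 := ih (by omega)
        have h4 : τ i k - m = (τ i k - (m + 1)) + 1 := by omega
        rw [h4, hysucc] at h3
        exact hstep _ _ (hKW _ _ hlt (hin i k α₀ hα₀' _ (Nat.sub_le _ _))) h3
    have h5 := hback (τ i k) le_rfl
    rw [Nat.sub_self] at h5
    exact h5
  have hall := Filter.eventually_all.2 hfin
  have hδ' : ∀ᶠ k in (𝒰 : Filter ℕ), ‖(r (jj k) : ℂ) * α₀‖ < δ := by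
    have := hat.norm
    rw [norm_zero] at this
    exact this.eventually (Iio_mem_nhds hδ)
  obtain ⟨k, hk1, hk2⟩ := (hall.and hδ').exists
  exact ⟨_, hk2, lt_of_le_of_lt (hnle k α₀ hα₀') (hrlt _), hk1⟩

end Pool.Agent.H792R2.Rt
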